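import Pool.Agent.Helper92.FR.GoalsB

/-!
# FR-MTL: the approximation of the mean of the truncated exponential law
-/

namespace Pool.Agent.Helper37.FR

open MeasureTheory Pool.Agent.Helper92.FR Pool.Agent.Bin

theorem val_invNat (n : ℕ) (hn : 1 ≤ n) : Qn.val (invNat n) = 1 / n := by
  simp only [invNat, Qn.val, BN.val_sub, BN.val_ofNat]
  have h : ((n - 1 : ℕ) : ℝ) + 1 = n := by
    rw [Nat.cast_sub hn]
    simp
  rw [h]
  simp

theorem val_qNat (n : ℕ) : Qn.val (qNat n) = n := by simp [qNat]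

theorem val_pf (x : Qn) (k : ℕ) : Qn.val (pf x k) = x.val ^ k / k.factorial := by
  unfold pf
  rw [Qn.val_prod, List.map_map]
  induction k with
  | zero => simp
  | succ k ih =>
    rw [List.range_succ, List.map_append, List.prod_append, ih]
    simp only [List.map_cons, List.map_nil, List.prod_cons, List.prod_nil, mul_one,
      Function.comp, Qn.val_mul]
    rw [val_invNat _ (by omega), Nat.factorial_succ]
    push_cast
    have h1 : ((k : ℝ) + 1) ≠ 0 := by positivity
    have h2 : (k.factorial : ℝ) ≠ 0 := by positivity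
    field_simp
    ring

theorem val_serM (j K : ℕ) (x : Qn) (hj : 1 ≤ j) :
    Qn.val (serM j K x) = ∑ k ∈ Finset.range K, x.val ^ k / k.factorial * (1 / (k + j)) := by
  unfold serM
  rw [Qn.val_sum, List.map_map]
  induction K with
  | zero => simp
  | succ K ih =>
    rw [List.range_succ, List.map_append, List.sum_append, ih, Finset.sum_range_succ]
    simp only [List.map_cons, List.map_nil, List.sum_cons, List.sum_nil, add_zero,
      Function.comp, Qn.val_mul]
    rw [val_invNat _ (by omega), val_pf]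
    push_cast
    rfl

theorem pow_fact (P K : ℕ) (y : ℝ) (hy : |y| ≤ P) (hK : 8 * P + 8 ≤ K) :
    |y| ^ K / K.factorial ≤ (1 / 2) ^ K := by
  have hK0 : (0 : ℝ) < K := by
    have : 0 < K := by omega
    exact_mod_cast this
  have h1 := Real.pow_div_factorial_le_exp (K : ℝ) hK0.le K
  have h2 : Real.exp (K : ℝ) = Real.exp 1 ^ K := by
    rw [← Real.exp_nat_mul, mul_one]
  have h3 : Real.exp 1 ≤ 4 := by
    have := Real.exp_one_lt_d9
    linarith
  have h4 : |y| ≤ K / 8 := by
    have : (8 : ℝ) * P + 8 ≤ K := by exact_mod_cast hK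
    linarith
  calc |y| ^ K / K.factorial ≤ (K / 8 : ℝ) ^ K / K.factorial := by
        gcongr
    _ = (1 / 8 : ℝ) ^ K * ((K : ℝ) ^ K / K.factorial) := by
        rw [div_pow, one_div, inv_pow]
        field_simp
    _ ≤ (1 / 8 : ℝ) ^ K * 4 ^ K := by
        have h5 : Real.exp 1 ^ K ≤ 4 ^ K := by gcongr
        have h6 : (K : ℝ) ^ K / K.factorial ≤ 4 ^ K := by
          rw [h2] at h1
          exact h1.trans h5
        gcongr
    _ = (1 / 2) ^ K := by
        rw [← mul_pow]
        norm_num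

theorem exp_series (P K : ℕ) (y : ℝ) (hy : |y| ≤ P) (hK : 8 * P + 8 ≤ K) :
    |Real.exp y - ∑ k ∈ Finset.range K, y ^ k / k.factorial| ≤ 2 * (1 / 2) ^ K := by
  have h0 : ‖(y : ℂ)‖ = |y| := Complex.norm_real y
  have h1 : ‖(y : ℂ)‖ / (K.succ : ℕ) ≤ 1 / 2 := by
    rw [h0, div_le_iff₀ (by positivity)]
    have : (8 : ℝ) * P + 8 ≤ K := by exact_mod_cast hK
    have h2 : (0 : ℝ) ≤ P := by positivity
    push_cast
    linarith
  have h2 := Complex.exp_bound' h1
  have h3 : Complex.exp (y : ℂ) - ∑ m ∈ Finset.range K, (y : ℂ) ^ m / (m.factorial : ℂ) =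
      ((Real.exp y - ∑ k ∈ Finset.range K, y ^ k / k.factorial : ℝ) : ℂ) := by
    push_cast
    rfl
  rw [h3, Complex.norm_real, h0] at h2
  have h4 := pow_fact P K y hy hK
  rw [Real.norm_eq_abs] at h2
  linarith

theorem int_series (m P K : ℕ) (b : ℝ) (hb : 0 ≤ b) (hbP : b ≤ P) (hK : 8 * P + 8 ≤ K) :
    |(∑ k ∈ Finset.range K, (-b) ^ k / k.factorial * (1 / (k + (m + 1 : ℕ)))) -
      ∫ x in (0 : ℝ)..1, x ^ m * Real.exp (-b * x)| ≤ 2 * (1 / 2) ^ K := by
  have h1 : (∑ k ∈ Finset.range K, (-b) ^ k / k.factorial * (1 / (k + (m + 1 : ℕ)))) =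
      ∫ x in (0 : ℝ)..1, x ^ m * ∑ k ∈ Finset.range K, (-b * x) ^ k / k.factorial := by
    have h2 : ∀ x : ℝ, x ^ m * ∑ k ∈ Finset.range K, (-b * x) ^ k / k.factorial =
        ∑ k ∈ Finset.range K, (-b) ^ k / k.factorial * x ^ (k + m) := by
      intro x
      rw [Finset.mul_sum]
      refine Finset.sum_congr rfl fun k _ => ?_
      rw [mul_pow, pow_add]
      ring
    simp_rw [h2]
    rw [intervalIntegral.integral_finsetSum]
    · refine Finset.sum_congr rfl fun k _ => ?_
      rw [intervalIntegral.integral_const_mul, integral_pow]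
      push_cast
      simp
      left
      ring
    · intro k _
      exact (by fun_prop : Continuous fun x : ℝ =>
        (-b) ^ k / k.factorial * x ^ (k + m)).intervalIntegrable _ _
  rw [h1, ← intervalIntegral.integral_sub]
  · have h3 := intervalIntegral.norm_integral_le_of_norm_le_const (a := (0 : ℝ)) (b := 1)
      (C := 2 * (1 / 2) ^ K)
      (f := fun x : ℝ => x ^ m * ∑ k ∈ Finset.range K, (-b * x) ^ k / k.factorial -
        x ^ m * Real.exp (-b * x)) (by
        intro x hx
        rw [Set.uIoc_of_le zero_le_one] at hx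
        have h4 : |(-b * x)| ≤ P := by
          rw [abs_mul, abs_neg, abs_of_nonneg hb, abs_of_pos hx.1]
          nlinarith [hx.1, hx.2]
        have h5 := exp_series P K (-b * x) h4 hK
        rw [← mul_sub, Real.norm_eq_abs, abs_mul, abs_pow, abs_of_pos hx.1, abs_sub_comm]
        have h6 : x ^ m ≤ 1 := pow_le_one₀ hx.1.le hx.2
        have h7 : 0 ≤ x ^ m := pow_nonneg hx.1.le _
        calc x ^ m * |Real.exp (-b * x) - ∑ k ∈ Finset.range K, (-b * x) ^ k / k.factorial|
            ≤ 1 * (2 * (1 / 2) ^ K) := by gcongr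
          _ = _ := one_mul _)
    simpa using h3
  · exact (by fun_prop : Continuous fun x : ℝ =>
      x ^ m * ∑ k ∈ Finset.range K, (-b * x) ^ k / k.factorial).intervalIntegrable _ _
  · exact (by fun_prop : Continuous fun x : ℝ =>
      x ^ m * Real.exp (-b * x)).intervalIntegrable _ _

/-- The real core: the approximation of `mm (-b)`. -/
theorem core (hq : TrqStmt) (P K : ℕ) (b : ℝ) (hb : 0 ≤ b) (hP : 1 ≤ P) (hK : 8 * P + 8 ≤ K) :
    |(if (P : ℝ) ≤ b then b⁻¹ else
      (∑ k ∈ Finset.range K, (-b) ^ k / k.factorial * (1 / (k + (2 : ℕ)))) *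
      (∑ k ∈ Finset.range K, (-b) ^ k / k.factorial * (1 / (k + (1 : ℕ))))⁻¹) - mm (-b)| ≤
      2 / 2 ^ P := by
  obtain ⟨hM1, hM2, hm0, hm1, hm2, -, -⟩ := hq.2.2 b hb
  have hMpos : 0 < MM (-b) := lt_of_lt_of_le (by positivity) hM1
  have hP1 : (1 : ℝ) ≤ P := by exact_mod_cast hP
  split_ifs with h
  · -- large b
    have hb1 : (1 : ℝ) ≤ b := hP1.trans h
    have hb0 : (0 : ℝ) < b := by linarith
    have h1 : ∫ x in (0 : ℝ)..1, (x * Real.exp (-b * x) - b⁻¹ * Real.exp (-b * x)) =
        -(b⁻¹ * Real.exp (-b)) := by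
      have hd : ∀ x ∈ Set.uIcc (0 : ℝ) 1, HasDerivAt (fun x : ℝ => -(b⁻¹ * x * Real.exp (-b * x)))
          (x * Real.exp (-b * x) - b⁻¹ * Real.exp (-b * x)) x := by
        intro x _
        have h2 : HasDerivAt (fun x : ℝ => Real.exp (-b * x)) (Real.exp (-b * x) * (-b * 1)) x :=
          (HasDerivAt.const_mul (-b) (hasDerivAt_id' x)).exp
        have h3 : HasDerivAt (fun x : ℝ => b⁻¹ * x) (b⁻¹ * 1) x :=
          (hasDerivAt_id' x).const_mul b⁻¹
        have h4 := (h3.mul h2).neg
        refine h4.congr_deriv ?_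
        field_simp
        ring
      rw [intervalIntegral.integral_eq_sub_of_hasDerivAt hd
        ((by fun_prop : Continuous fun x : ℝ => x * Real.exp (-b * x) -
          b⁻¹ * Real.exp (-b * x)).intervalIntegrable _ _)]
      simp
    have h2 : ∫ x in (0 : ℝ)..1, (x * Real.exp (-b * x) - b⁻¹ * Real.exp (-b * x)) =
        mm (-b) * MM (-b) - b⁻¹ * MM (-b) := by
      rw [intervalIntegral.integral_sub
        ((by fun_prop : Continuous fun x : ℝ => x * Real.exp (-b * x)).intervalIntegrable _ _)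
        ((by fun_prop : Continuous fun x : ℝ => b⁻¹ * Real.exp (-b * x)).intervalIntegrable _ _),
        intervalIntegral.integral_const_mul]
      unfold mm
      rw [div_mul_cancel₀ _ hMpos.ne']
      rfl
    have h3 : ∫ x in (0 : ℝ)..1, Real.exp (-b * x) = b⁻¹ * (1 - Real.exp (-b)) := by
      have hd : ∀ x ∈ Set.uIcc (0 : ℝ) 1, HasDerivAt (fun x : ℝ => -(b⁻¹ * Real.exp (-b * x)))
          (Real.exp (-b * x)) x := by
        intro x _
        have h2 : HasDerivAt (fun x : ℝ => Real.exp (-b * x)) (Real.exp (-b * x) * (-b * 1)) x :=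
          (HasDerivAt.const_mul (-b) (hasDerivAt_id' x)).exp
        have h4 := (h2.const_mul b⁻¹).neg
        refine h4.congr_deriv ?_
        field_simp
      rw [intervalIntegral.integral_eq_sub_of_hasDerivAt hd
        ((by fun_prop : Continuous fun x : ℝ => Real.exp (-b * x)).intervalIntegrable _ _)]
      simp
      ring
    have h4 : MM (-b) = b⁻¹ * (1 - Real.exp (-b)) := h3
    have h5 : (b⁻¹ - mm (-b)) * (b⁻¹ * (1 - Real.exp (-b))) = b⁻¹ * Real.exp (-b) := by
      rw [← h4]
      linarith [h1.symm.trans h2]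
    have h6 : (b⁻¹ - mm (-b)) * (1 - Real.exp (-b)) = Real.exp (-b) := by
      have h7 : b⁻¹ ≠ 0 := by positivity
      apply mul_left_cancel₀ h7
      linarith
    have hE2 : 2 * Real.exp (-b) ≤ 1 := by
      have h8 : Real.exp (-b) ≤ Real.exp (-1) := Real.exp_le_exp.mpr (by linarith)
      have h9 : Real.exp (-1) ≤ 1 / 2 := by
        rw [Real.exp_neg]
        have := Real.exp_one_gt_d9
        rw [inv_eq_one_div]
        exact one_div_le_one_div_of_le (by norm_num) (by linarith)
      linarith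
    have hE3 : Real.exp (-b) ≤ 1 / 2 ^ P := by
      have h8 : Real.exp (-b) ≤ Real.exp (-(P : ℝ)) := Real.exp_le_exp.mpr (by linarith)
      refine h8.trans ?_
      rw [Real.exp_neg, inv_eq_one_div]
      apply one_div_le_one_div_of_le (by positivity)
      have h9 : Real.exp (P : ℝ) = Real.exp 1 ^ P := by
        rw [← Real.exp_nat_mul, mul_one]
      rw [h9]
      have h10 : (2 : ℝ) ≤ Real.exp 1 := by
        have := Real.exp_one_gt_d9
        linarith
      gcongr
    have hE0 := Real.exp_pos (-b)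
    have h11 : 0 ≤ b⁻¹ - mm (-b) := by
      by_contra hneg
      push Not at hneg
      nlinarith
    rw [abs_of_nonneg h11]
    have h12 : b⁻¹ - mm (-b) ≤ 2 * Real.exp (-b) := by nlinarith
    have h13 : (2 : ℝ) / 2 ^ P = 2 * (1 / 2 ^ P) := by ring
    rw [h13]
    linarith
  · -- small b
    push Not at h
    have hS2 := int_series 1 P K b hb h.le hK
    have hS1 := int_series 0 P K b hb h.le hK
    set S2 := ∑ k ∈ Finset.range K, (-b) ^ k / k.factorial * (1 / (k + (2 : ℕ)) : ℝ) with hS2d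
    set S1 := ∑ k ∈ Finset.range K, (-b) ^ k / k.factorial * (1 / (k + (1 : ℕ)) : ℝ) with hS1d
    have e2 : (∑ k ∈ Finset.range K, (-b) ^ k / k.factorial * (1 / (k + (1 + 1 : ℕ)) : ℝ)) = S2 :=
      rfl
    have e1 : (∑ k ∈ Finset.range K, (-b) ^ k / k.factorial * (1 / (k + (0 + 1 : ℕ)) : ℝ)) = S1 :=
      rfl
    have i2 : ∫ x in (0 : ℝ)..1, x ^ 1 * Real.exp (-b * x) = mm (-b) * MM (-b) := by
      unfold mm
      rw [div_mul_cancel₀ _ hMpos.ne']
      simp
    have i1 : ∫ x in (0 : ℝ)..1, x ^ 0 * Real.exp (-b * x) = MM (-b) := by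
      simp [MM]
    rw [i2] at hS2
    rw [i1] at hS1
    -- bounds
    have hδ : 2 * (1 / 2 : ℝ) ^ K ≤ 1 / 2 ^ P * (1 / 2 ^ P) / 4 := by
      have h1 : (1 / 2 : ℝ) ^ K ≤ (1 / 2) ^ (2 * P + 3) :=
        pow_le_pow_of_le_one (by norm_num) (by norm_num) (by omega)
      have h2 : (1 / 2 : ℝ) ^ (2 * P + 3) = 1 / 2 ^ P * (1 / 2 ^ P) / 8 := by
        rw [pow_add, pow_mul']
        rw [div_pow, one_pow]
        ring
      rw [h2] at h1
      linarith
    have hMP : 1 / 2 ^ P ≤ MM (-b) := by
      refine le_trans ?_ hM1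
      apply one_div_le_one_div_of_le (by positivity)
      have h3 : (P : ℝ) + 1 ≤ 2 ^ P := by
        have : P + 1 ≤ 2 ^ P := Nat.lt_two_pow_self
        exact_mod_cast this
      linarith
    set M := MM (-b) with hMd
    set μ := mm (-b) with hμd
    set u : ℝ := 1 / 2 ^ P with hud
    have hu0 : 0 < u := by positivity
    have hu1 : u ≤ 1 := by
      rw [hud, div_le_one (by positivity)]
      exact one_le_pow₀ (by norm_num)
    have hμ1 : μ ≤ 1 := by
      have h3 : 2 / (1 + b) ≤ 2 := by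
        rw [div_le_iff₀ (by positivity)]
        linarith
      by_contra hlt
      push Not at hlt
      -- `mm a ≤ 1` from reflection
      have h4 := hq.2.1 (-b)
      have h5 : 0 ≤ mm b := by
        have h6 : 0 ≤ MM b := by
          unfold MM
          exact intervalIntegral.integral_nonneg zero_le_one fun x _ => (Real.exp_pos _).le
        unfold mm
        refine div_nonneg ?_ h6
        exact intervalIntegral.integral_nonneg zero_le_one fun x hx =>
          mul_nonneg hx.1 (Real.exp_pos _).le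
      rw [neg_neg] at h4
      linarith
    have hd2 := abs_le.mp (hS2.trans hδ)
    have hd1 := abs_le.mp (hS1.trans hδ)
    have huu : u * u ≤ u := by nlinarith
    have hS1pos : u / 2 ≤ S1 := by nlinarith [hd1.1]
    have hS1p : 0 < S1 := by linarith
    have hgoal : |S2 * S1⁻¹ - μ| = |S2 - μ * S1| / S1 := by
      rw [← div_eq_mul_inv, div_sub' hS1p.ne', abs_div, abs_of_pos hS1p, mul_comm S1 μ]
    rw [hgoal, div_le_iff₀ hS1p]
    have h13 : (2 : ℝ) / 2 ^ P = 2 * u := by rw [hud]; ring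
    rw [h13]
    have h14 : |S2 - μ * S1| ≤ u * u / 2 := by
      have h15 : S2 - μ * S1 = (S2 - μ * M) - μ * (S1 - M) := by ring
      have h16 : |S2 - μ * M| ≤ u * u / 4 := hS2.trans hδ
      have h17 : |S1 - M| ≤ u * u / 4 := hS1.trans hδ
      have h18 : |μ * (S1 - M)| ≤ u * u / 4 := by
        rw [abs_mul, abs_of_nonneg hm0]
        calc μ * |S1 - M| ≤ 1 * (u * u / 4) := by gcongr
          _ = _ := one_mul _
      rw [h15]
      have h19 := abs_sub (S2 - μ * M) (μ * (S1 - M))
      linarith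
    refine h14.trans ?_
    have h20 : 2 * u * (u / 2) ≤ 2 * u * S1 := by gcongr
    have h21 : 0 ≤ u * u := by positivity
    linarith [mul_comm u u]

/-- FR-MTL. -/
theorem mtl (hq : TrqStmt) : MtlStmt := by
  intro P K a hP hK
  have key : ∀ x : Qn, Qn.val (if Qn.le (qNat P) (Qn.abs x) = true then Qn.inv (Qn.abs x)
      else Qn.mul (serM 2 K (Qn.neg (Qn.abs x))) (Qn.inv (serM 1 K (Qn.neg (Qn.abs x))))) =
      (if (P : ℝ) ≤ |x.val| then |x.val|⁻¹ else
      (∑ k ∈ Finset.range K, (-|x.val|) ^ k / k.factorial * (1 / (k + (2 : ℕ)))) *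
      (∑ k ∈ Finset.range K, (-|x.val|) ^ k / k.factorial * (1 / (k + (1 : ℕ))))⁻¹) := by
    intro x
    have h1 : Qn.le (qNat P) (Qn.abs x) = true ↔ (P : ℝ) ≤ |x.val| := by
      rw [Qn.le_iff, val_qNat, Qn.val_abs]
    by_cases h : (P : ℝ) ≤ |x.val|
    · rw [if_pos (h1.mpr h), if_pos h, Qn.val_inv, Qn.val_abs]
    · rw [if_neg (fun h2 => h (h1.mp h2)), if_neg h, Qn.val_mul, Qn.val_inv,
        val_serM 2 K _ (by norm_num), val_serM 1 K _ (by norm_num), Qn.val_neg, Qn.val_abs]
  have hc := core hq P K |a.val| (abs_nonneg _) hP hK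
  unfold mtil
  by_cases h0 : Qn.le a Qn.zero = true
  · rw [if_pos h0, key a]
    have h2 : a.val ≤ 0 := by
      have := (Qn.le_iff a Qn.zero).mp h0
      simpa using this
    have h3 : -|a.val| = a.val := by rw [abs_of_nonpos h2, neg_neg]
    rw [h3] at hc ⊢
    exact hc
  · rw [if_neg h0, Qn.val_sub, Qn.val_one, key a]
    have h2 : 0 < a.val := by
      by_contra hn
      push Not at hn
      exact h0 ((Qn.le_iff a Qn.zero).mpr (by simpa using hn))
    have h3 : mm a.val = 1 - mm (-|a.val|) := by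
      rw [abs_of_pos h2]
      exact hq.2.1 _
    rw [h3]
    have h4 : ∀ u v : ℝ, (1 - u) - (1 - v) = -(u - v) := by intro u v; ring
    rw [h4, abs_neg]
    exact hc

end Pool.Agent.Helper37.FR
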